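import Pool.Agent.Helper1.OP.Stage

/-!
MP_f8e2d3_co: the assembly (A).
-/

set_option autoImplicit false

namespace Pool.Agent.Helper1.OP

variable {V : Type*} [Fintype V] [DecidableEq V]

/-- (A) the assembly: `J` stages of `K L` steps each, every stage costs at most `H`. -/
theorem assembly (P : ℕ → Bool) (Λ L K q H D₀ : ℕ) (hq : 1 ≤ q) (hT : K * L < D₀)
    (hH : ∀ D : ℕ, D₀ ≤ D →
      1 + K * ((1 / (q : ℝ)) * (1 + 1 / (q : ℝ)) ^ L * (L * Λ)) *
          (1 + (1 / (q : ℝ)) * (1 + 1 / (q : ℝ)) ^ L * ((L + 1) * D / (2 * (D - K * L)))) ^ K <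
        (1 + 1 / (q : ℝ)) ^ (H + 1)) :
    ∀ (J : ℕ) (N : Bool → V → Finset V), (∀ b x y, y ∈ N b x → x ∉ N b y) →
      (∀ u, (Finset.univ.filter fun e : Bool × V => u ∈ N e.1 e.2).card ≤ Λ) →
      ∀ D : ℕ, D₀ + J * H ≤ D → (∀ b v, D ≤ (N b v).card) →
      ∀ x : V, (∀ b v, x ∉ N b v) → ∀ j : ℕ,
      ∃ X : ℕ → V, X 0 = x ∧ (∀ i < J * (K * L), X (i + 1) ∈ N (P (j + i)) (X i)) ∧
        (∀ i ≤ J * (K * L), ∀ i' ≤ J * (K * L), X i = X i' → i = i') := by
  intro J
  induction J with
  | zero =>
    intro N _ _ D _ _ x _ j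
    refine ⟨fun _ => x, rfl, by simp, ?_⟩
    intro i hi i' hi' _
    omega
  | succ J ih =>
    intro N hO hΛ D hD hDN x hx j
    choose N1 hN1 hN1c using fun b v => Finset.exists_subset_card_eq (hDN b v)
    have hD0 : D₀ + J * H + H ≤ D := by
      have : (J + 1) * H = J * H + H := by ring
      omega
    obtain ⟨X, hX0, hX1, hX2, hX3⟩ := stage N1
      (fun b u w h h' => hO b u w (hN1 _ _ h) (hN1 _ _ h')) P D Λ L K q hN1c
      (fun u => (Finset.card_le_card (by
        intro e he
        rw [Finset.mem_filter] at he ⊢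
        exact ⟨he.1, hN1 _ _ he.2⟩)).trans (hΛ u)) hq (by omega) x
      (fun b v h => hx b v (hN1 _ _ h)) j
    set A : Finset V := (Finset.range (K * L)).image fun i => X (i + 1) with hA
    have hHle : ∀ b v, (N1 b v ∩ A).card ≤ H := by
      intro b v
      by_contra hcon
      push Not at hcon
      have h1 := hX3 b v
      have h2 := hH D (by omega)
      have h3 : (1 + 1 / (q : ℝ)) ^ (H + 1) ≤ (1 + 1 / (q : ℝ)) ^ ((N1 b v ∩ A).card) := by
        apply pow_le_pow_right₀ _ hcon
        have : (0 : ℝ) ≤ 1 / (q : ℝ) := by positivity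
        linarith
      linarith
    have hXA : ∀ t ≤ K * L, 0 < t → X t ∈ A := by
      intro t ht h0
      rw [hA, Finset.mem_image]
      refine ⟨t - 1, Finset.mem_range.2 (by omega), ?_⟩
      show X (t - 1 + 1) = X t
      congr 1
      omega
    obtain ⟨Y, hY0, hY1, hY2⟩ := ih (fun b v => N1 b v \ A)
      (fun b u w h h' => hO b u w (hN1 _ _ (Finset.mem_sdiff.1 h).1)
        (hN1 _ _ (Finset.mem_sdiff.1 h').1))
      (fun u => (Finset.card_le_card (by
        intro e he
        rw [Finset.mem_filter] at he ⊢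
        exact ⟨he.1, hN1 _ _ (Finset.mem_sdiff.1 he.2).1⟩)).trans (hΛ u)) (D - H) (by omega)
      (by
        intro b v
        have h1 := hHle b v
        have h2 : (N1 b v \ A).card = (N1 b v).card - (N1 b v ∩ A).card := by
          rw [Finset.card_sdiff, Finset.inter_comm]
        rw [h2, hN1c]
        omega)
      (X (K * L))
      (by
        intro b v h
        rw [Finset.mem_sdiff] at h
        rcases Nat.eq_zero_or_pos (K * L) with h0 | h0
        · rw [h0, hX0] at h
          exact hx b v (hN1 _ _ h.1)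
        · exact h.2 (hXA _ le_rfl h0))
      (j + K * L)
    have hsucc : (J + 1) * (K * L) = K * L + J * (K * L) := by ring
    set Z : ℕ → V := fun t => if t ≤ K * L then X t else Y (t - K * L) with hZ
    have hZ1 : ∀ t, t ≤ K * L → Z t = X t := fun t ht => by simp [hZ, ht]
    have hZ2 : ∀ t, Z (K * L + t) = Y t := by
      intro t
      rcases Nat.eq_zero_or_pos t with h | h
      · subst h
        simp [hZ, hY0]
      · have h1 : ¬ K * L + t ≤ K * L := by omega
        simp only [hZ, h1, if_false]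
        congr 1
        omega
    have key : ∀ s < J * (K * L), ∀ t ≤ K * L, Z (K * L + (s + 1)) ≠ Z t := by
      intro s hs t ht heq
      rw [hZ2, hZ1 t ht] at heq
      have h1 := hY1 s hs
      rw [heq, Finset.mem_sdiff] at h1
      rcases Nat.eq_zero_or_pos t with h | h
      · subst h
        rw [hX0] at h1
        exact hx _ _ (hN1 _ _ h1.1)
      · exact h1.2 (hXA t ht h)
    refine ⟨Z, by rw [hZ1 0 (by omega), hX0], ?_, ?_⟩
    · intro t ht
      rcases Nat.lt_or_ge t (K * L) with h | h
      · rw [hZ1 t (by omega), hZ1 (t + 1) (by omega)]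
        exact hN1 _ _ (hX1 t h)
      · obtain ⟨s, hs⟩ : ∃ s, t = K * L + s := ⟨t - K * L, by omega⟩
        subst hs
        rw [hZ2, show K * L + s + 1 = K * L + (s + 1) by ring, hZ2,
          show j + (K * L + s) = j + K * L + s by ring]
        exact hN1 _ _ (Finset.mem_sdiff.1 (hY1 s (by omega))).1
    · intro t ht t' ht' heq
      rcases Nat.lt_or_ge (K * L) t with h | h <;> rcases Nat.lt_or_ge (K * L) t' with h' | h'
      · obtain ⟨s, hs⟩ : ∃ s, t = K * L + (s + 1) := ⟨t - K * L - 1, by omega⟩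
        obtain ⟨s', hs'⟩ : ∃ s, t' = K * L + (s + 1) := ⟨t' - K * L - 1, by omega⟩
        subst hs hs'
        rw [hZ2, hZ2] at heq
        have := hY2 (s + 1) (by omega) (s' + 1) (by omega) heq
        omega
      · obtain ⟨s, hs⟩ : ∃ s, t = K * L + (s + 1) := ⟨t - K * L - 1, by omega⟩
        subst hs
        exact absurd heq (key s (by omega) t' h')
      · obtain ⟨s', hs'⟩ : ∃ s, t' = K * L + (s + 1) := ⟨t' - K * L - 1, by omega⟩
        subst hs'
        exact absurd heq.symm (key s' (by omega) t h)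
      · rw [hZ1 t h, hZ1 t' h'] at heq
        exact hX2 t h t' h' heq

end Pool.Agent.Helper1.OP
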