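import Mathlib

/-!
MP_f8e2d3_co: the numerics (C).
-/

set_option autoImplicit false

namespace Pool.Agent.Helper1.OP

/-- `(1 + 1/q)^L ≤ 1 + a` if `L / q` is small. -/
theorem pow_small (q L : ℕ) (a : ℝ) (hq : 1 ≤ q) (h : (L : ℝ) / q ≤ a / 2) (ha : 0 ≤ a)
    (ha1 : a ≤ 1) :
    (1 + 1 / (q : ℝ)) ^ L ≤ 1 + a := by
  have hq0 : (0 : ℝ) < q := by exact_mod_cast hq
  have h1 : (1 + 1 / (q : ℝ)) ^ L ≤ Real.exp ((L : ℝ) / q) := by
    have : 1 + 1 / (q : ℝ) ≤ Real.exp (1 / (q : ℝ)) := by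
      have := Real.add_one_le_exp (1 / (q : ℝ))
      linarith
    calc (1 + 1 / (q : ℝ)) ^ L ≤ Real.exp (1 / (q : ℝ)) ^ L := by gcongr
      _ = Real.exp ((L : ℝ) / q) := by
        rw [← Real.exp_nat_mul]
        congr 1
        ring
  have h2 : Real.exp ((L : ℝ) / q) ≤ Real.exp (a / 2) := Real.exp_le_exp.2 h
  have h3 : Real.exp (a / 2) * (1 - a / 2) ≤ 1 := by
    have h4 := Real.one_sub_le_exp_neg (a / 2)
    calc Real.exp (a / 2) * (1 - a / 2) ≤ Real.exp (a / 2) * Real.exp (-(a / 2)) := by gcongr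
      _ = 1 := by rw [← Real.exp_add]; simp
  have h5 : (1 + a) * (1 - a / 2) ≥ 1 := by nlinarith
  have h6 : 0 < 1 - a / 2 := by linarith
  have h7 : Real.exp (a / 2) * (1 - a / 2) ≤ (1 + a) * (1 - a / 2) := by linarith
  have h8 := le_of_mul_le_mul_right h7 h6
  linarith

/-- Lower bound for powers of `1 + 1/q`. -/
theorem pow_large (q H : ℕ) (hq : 1 ≤ q) :
    Real.exp ((H : ℝ) / (q + 1)) ≤ (1 + 1 / (q : ℝ)) ^ H := by
  have hq0 : (0 : ℝ) < q := by exact_mod_cast hq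
  have h1 : Real.exp (1 / ((q : ℝ) + 1)) ≤ 1 + 1 / (q : ℝ) := by
    have h4 := Real.one_sub_le_exp_neg (1 / ((q : ℝ) + 1))
    have h5 : (1 - 1 / ((q : ℝ) + 1)) * (1 + 1 / (q : ℝ)) = 1 := by field_simp; ring
    have h6 : 0 < 1 - 1 / ((q : ℝ) + 1) := by
      have : 1 / ((q : ℝ) + 1) < 1 := by
        rw [div_lt_one (by positivity)]
        linarith
      linarith
    have h7 : Real.exp (1 / ((q : ℝ) + 1)) * (1 - 1 / ((q : ℝ) + 1)) ≤
        (1 + 1 / (q : ℝ)) * (1 - 1 / ((q : ℝ) + 1)) := by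
      calc Real.exp (1 / ((q : ℝ) + 1)) * (1 - 1 / ((q : ℝ) + 1)) ≤
          Real.exp (1 / ((q : ℝ) + 1)) * Real.exp (-(1 / ((q : ℝ) + 1))) := by gcongr
        _ = 1 := by rw [← Real.exp_add]; simp
        _ = _ := by rw [mul_comm, h5]
    exact le_of_mul_le_mul_right h7 h6
  calc Real.exp ((H : ℝ) / (q + 1)) = Real.exp (1 / ((q : ℝ) + 1)) ^ H := by
        rw [← Real.exp_nat_mul]
        congr 1
        ring
    _ ≤ _ := by gcongr

/-- The key inequality of one stage. -/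
theorem key_ineq (ε : ℝ) (hε : 0 < ε) (hε' : ε ≤ 1 / 2) (L K q H Δ D : ℕ) (hL : 24 / ε ≤ L)
    (hq : 48 * L / ε ≤ q) (hK : 1 ≤ K) (hD : 48 * ((K * L : ℕ) : ℝ) / ε ≤ D)
    (hH : (1 / 2 + ε / 2) * ((K * L : ℕ) : ℝ) ≤ H + 1)
    (hΔ : 1 + 4 * ((K * L : ℕ) : ℝ) * Δ < Real.exp (((K * L : ℕ) : ℝ) / q * (ε / 8))) :
    1 + K * ((1 / (q : ℝ)) * (1 + 1 / (q : ℝ)) ^ L * (L * (2 * Δ : ℕ))) *
        (1 + (1 / (q : ℝ)) * (1 + 1 / (q : ℝ)) ^ L *
          ((L + 1) * D / (2 * (D - K * L)))) ^ K <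
      (1 + 1 / (q : ℝ)) ^ (H + 1) := by
  have hL0 : (0 : ℝ) < L := lt_of_lt_of_le (by positivity) hL
  have hL1 : 1 ≤ L := by
    have : 0 < L := by exact_mod_cast hL0
    omega
  have hLr1 : (1 : ℝ) ≤ L := by exact_mod_cast hL1
  have hKr : (1 : ℝ) ≤ K := by exact_mod_cast hK
  have hq48 : (48 : ℝ) ≤ q := by
    refine le_trans ?_ hq
    rw [le_div_iff₀ hε]
    nlinarith
  have hq0 : (0 : ℝ) < q := by linarith
  have hq1 : 1 ≤ q := by
    have : 0 < q := by exact_mod_cast hq0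
    omega
  set T : ℝ := ((K * L : ℕ) : ℝ) with hTdef
  have hTe : T = K * L := by rw [hTdef]; push_cast; ring
  have hT1 : 1 ≤ T := by
    rw [hTe]
    nlinarith
  have hD0 : (0 : ℝ) < D := by
    refine lt_of_lt_of_le ?_ hD
    positivity
  -- T ≤ (ε/48) D
  have hTD : T ≤ ε / 48 * D := by
    rw [div_le_iff₀ hε] at hD
    linarith
  have hDT : (0 : ℝ) < D - K * L := by
    rw [← hTe]
    nlinarith
  set a : ℝ := ε / 24 with ha
  have ha0 : 0 < a := by positivity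
  have ha1 : a ≤ 1 / 48 := by rw [ha]; linarith
  have f1 : (1 + 1 / (q : ℝ)) ^ L ≤ 1 + a := by
    apply pow_small q L a hq1 _ ha0.le (by linarith)
    rw [div_le_iff₀ hq0, ha]
    rw [div_le_iff₀ hε] at hq
    nlinarith
  have f1' : 0 ≤ (1 + 1 / (q : ℝ)) ^ L := by positivity
  have f2 : ((L : ℝ) + 1) ≤ L * (1 + a) := by
    rw [div_le_iff₀ hε] at hL
    rw [ha]
    nlinarith
  have f3 : (D : ℝ) / (D - K * L) ≤ 1 + a := by
    rw [div_le_iff₀ hDT, ← hTe]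
    have : T ≤ a / 2 * D := by rw [ha]; linarith
    nlinarith
  have f3' : 0 ≤ (D : ℝ) / (D - K * L) := by positivity
  set ρ : ℝ := (1 / (q : ℝ)) * (1 + 1 / (q : ℝ)) ^ L *
          ((L + 1) * D / (2 * (D - K * L))) with hρ
  have hρ0 : 0 ≤ ρ := by positivity
  have hρe : K * ρ = T / q / 2 * ((1 + 1 / (q : ℝ)) ^ L * ((L + 1) / L) *
      (D / (D - K * L))) := by
    rw [hρ, hTe]
    field_simp
  have f2' : ((L : ℝ) + 1) / L ≤ 1 + a := by
    rw [div_le_iff₀ hL0]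
    linarith
  have hρK : K * ρ ≤ T / q * (1 / 2 + ε / 8) := by
    rw [hρe]
    have h1 : (1 + 1 / (q : ℝ)) ^ L * ((L + 1) / L) * (D / (D - K * L)) ≤
        (1 + a) * (1 + a) * (1 + a) := by
      gcongr
    have h2 : (1 + a) * (1 + a) * (1 + a) ≤ 1 + ε / 4 := by
      have : ε / 4 = 6 * a := by rw [ha]; ring
      rw [this]
      nlinarith [mul_pos ha0 ha0]
    have h3 : 0 ≤ T / q / 2 := by positivity
    calc _ ≤ T / q / 2 * (1 + ε / 4) := by
          apply mul_le_mul_of_nonneg_left (h1.trans h2) h3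
      _ = _ := by ring
  have hpow : (1 + ρ) ^ K ≤ Real.exp (T / q * (1 / 2 + ε / 8)) := by
    calc (1 + ρ) ^ K ≤ Real.exp ρ ^ K := by
          have := Real.add_one_le_exp ρ
          gcongr
          linarith
      _ = Real.exp (K * ρ) := by rw [← Real.exp_nat_mul]
      _ ≤ _ := Real.exp_le_exp.2 hρK
  have hC : K * ((1 / (q : ℝ)) * (1 + 1 / (q : ℝ)) ^ L * (L * (2 * Δ : ℕ))) ≤ 4 * T * Δ := by
    have h1 : 1 / (q : ℝ) ≤ 1 := by
      rw [div_le_one hq0]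
      linarith
    have h2 : (1 + 1 / (q : ℝ)) ^ L ≤ 2 := by linarith
    have h3 : (1 / (q : ℝ)) * (1 + 1 / (q : ℝ)) ^ L ≤ 1 * 2 := by gcongr
    have hΔ0 : (0 : ℝ) ≤ Δ := Nat.cast_nonneg _
    calc K * ((1 / (q : ℝ)) * (1 + 1 / (q : ℝ)) ^ L * (L * (2 * Δ : ℕ))) ≤
        K * (1 * 2 * (L * (2 * Δ : ℕ))) := by gcongr
      _ = 4 * T * Δ := by
        rw [hTe]
        push_cast
        ring
  have hlow : Real.exp (T / q * (1 / 2 + ε / 4)) ≤ (1 + 1 / (q : ℝ)) ^ (H + 1) := by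
    refine le_trans (Real.exp_le_exp.2 ?_) (pow_large q (H + 1) hq1)
    push_cast
    have h1 : (1 / 2 + ε / 2) * T / (q + 1) ≤ ((H : ℝ) + 1) / (q + 1) := by gcongr
    refine le_trans ?_ h1
    rw [div_mul_eq_mul_div, div_le_div_iff₀ hq0 (by positivity)]
    -- T * (1/2 + ε/4) * (q+1) ≤ (1/2+ε/2) * T * q
    have h2 : (1 / 2 + ε / 4) ≤ ε / 4 * q := by
      have h3 : 48 ≤ ε * q := by
        rw [div_le_iff₀ hε] at hq
        nlinarith
      linarith
    have h4 : (1 / 2 + ε / 4) * (q + 1) ≤ (1 / 2 + ε / 2) * q := by nlinarith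
    nlinarith
  have hE0 : 1 ≤ Real.exp (T / q * (1 / 2 + ε / 8)) := Real.one_le_exp (by positivity)
  calc 1 + K * ((1 / (q : ℝ)) * (1 + 1 / (q : ℝ)) ^ L * (L * (2 * Δ : ℕ))) * (1 + ρ) ^ K ≤
      Real.exp (T / q * (1 / 2 + ε / 8)) +
        4 * T * Δ * Real.exp (T / q * (1 / 2 + ε / 8)) := by
        have : 0 ≤ (1 + ρ) ^ K := by positivity
        gcongr
    _ = (1 + 4 * T * Δ) * Real.exp (T / q * (1 / 2 + ε / 8)) := by ring
    _ < Real.exp (T / q * (ε / 8)) * Real.exp (T / q * (1 / 2 + ε / 8)) := by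
        apply mul_lt_mul_of_pos_right hΔ (Real.exp_pos _)
    _ = Real.exp (T / q * (1 / 2 + ε / 4)) := by
        rw [← Real.exp_add]
        congr 1
        ring
    _ ≤ _ := hlow

/-- (C) the numerics. -/
theorem numerics (ε : ℝ) (hε : 0 < ε) (hε' : ε ≤ 1 / 2) :
    ∃ c : ℝ, 0 < c ∧ ∃ k₀ : ℕ, ∀ k : ℕ, k₀ ≤ k → ∀ d Δ : ℕ, (1 / 2 + ε) * k ≤ d + 1 →
      (Δ : ℝ) ≤ Real.exp (c * k) →
      ∃ J L K q H D₀ : ℕ, 1 ≤ q ∧ K * L < D₀ ∧ D₀ + J * H ≤ d ∧ k ≤ J * (K * L) ∧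
        ∀ D : ℕ, D₀ ≤ D →
          1 + K * ((1 / (q : ℝ)) * (1 + 1 / (q : ℝ)) ^ L * (L * (2 * Δ : ℕ))) *
              (1 + (1 / (q : ℝ)) * (1 + 1 / (q : ℝ)) ^ L *
                ((L + 1) * D / (2 * (D - K * L)))) ^ K <
            (1 + 1 / (q : ℝ)) ^ (H + 1) := by
  obtain ⟨L, hL⟩ : ∃ L : ℕ, 24 / ε ≤ L := exists_nat_ge _
  obtain ⟨q, hq⟩ : ∃ q : ℕ, 48 * L / ε ≤ q := exists_nat_ge _
  obtain ⟨J, hJ⟩ : ∃ J : ℕ, 192 / ε ^ 2 ≤ J := exists_nat_ge _
  have hL0 : (0 : ℝ) < L := lt_of_lt_of_le (by positivity) hL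
  have hLN : 0 < L := by exact_mod_cast hL0
  have hq0 : (0 : ℝ) < q := lt_of_lt_of_le (by positivity) hq
  have hqN : 0 < q := by exact_mod_cast hq0
  have hJ0 : (0 : ℝ) < J := lt_of_lt_of_le (by positivity) hJ
  have hJN : 0 < J := by exact_mod_cast hJ0
  obtain ⟨k1, hk1⟩ : ∃ k1 : ℕ, 4 * (3 + 48 * L / ε + J * L) / ε ≤ k1 := exists_nat_ge _
  obtain ⟨k2, hk2⟩ : ∃ k2 : ℕ, J * (10 * (16 * q / ε) ^ 2) < k2 := exists_nat_gt _
  refine ⟨ε / (16 * q * J), by positivity, max k1 k2, ?_⟩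
  intro k hk d Δ hd hΔ
  have hkk1 : (k1 : ℝ) ≤ k := by exact_mod_cast (le_max_left _ _).trans hk
  have hkk2 : (k2 : ℝ) ≤ k := by exact_mod_cast (le_max_right _ _).trans hk
  have hk0 : (0 : ℝ) < k := by
    have : (0 : ℝ) ≤ J * (10 * (16 * q / ε) ^ 2) := by positivity
    linarith
  -- K and T
  set K : ℕ := k / (J * L) + 1 with hK
  set H : ℕ := ⌊(1 / 2 + ε / 2) * ((K * L : ℕ) : ℝ)⌋₊ with hH
  set D₀ : ℕ := ⌈48 * ((K * L : ℕ) : ℝ) / ε⌉₊ with hD₀
  set T : ℝ := ((K * L : ℕ) : ℝ) with hT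
  have hJL : 0 < J * L := Nat.mul_pos hJN hLN
  have hKup : K * (J * L) ≤ k + J * L := by
    have := Nat.div_mul_le_self k (J * L)
    rw [hK]
    nlinarith
  have hKlow : k < K * (J * L) := by
    have h1 := Nat.div_add_mod k (J * L)
    have h2 := Nat.mod_lt k hJL
    have h3 : K * (J * L) = J * L * (k / (J * L)) + J * L := by rw [hK]; ring
    rw [h3]
    omega
  have hJT : (J : ℝ) * T ≤ k + J * L := by
    have : ((K * (J * L) : ℕ) : ℝ) ≤ ((k + J * L : ℕ) : ℝ) := by exact_mod_cast hKup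
    push_cast at this
    rw [hT]
    push_cast
    linarith
  have hJT2 : (k : ℝ) < J * T := by
    have : ((k : ℕ) : ℝ) < ((K * (J * L) : ℕ) : ℝ) := by exact_mod_cast hKlow
    push_cast at this
    rw [hT]
    push_cast
    linarith
  have hKN : 1 ≤ K := by rw [hK]; exact Nat.le_add_left _ _
  have hTpos : 0 < T := by
    rw [hT]
    exact_mod_cast Nat.mul_pos hKN hLN
  refine ⟨J, L, K, q, H, D₀, hqN, ?_, ?_, ?_, ?_⟩
  · have h1 : 48 * T / ε ≤ (D₀ : ℝ) := Nat.le_ceil _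
    have h2 : T < 48 * T / ε := by
      rw [lt_div_iff₀ hε]
      nlinarith
    have h3 : ((K * L : ℕ) : ℝ) < (D₀ : ℝ) := by linarith
    exact_mod_cast h3
  · have h1 : (D₀ : ℝ) < 48 * T / ε + 1 := Nat.ceil_lt_add_one (by positivity)
    have h2 : (H : ℝ) ≤ (1 / 2 + ε / 2) * T := Nat.floor_le (by positivity)
    have h3 : (J : ℝ) * H ≤ (1 / 2 + ε / 2) * (k + J * L) := by
      calc (J : ℝ) * H ≤ J * ((1 / 2 + ε / 2) * T) := by gcongr
        _ = (1 / 2 + ε / 2) * (J * T) := by ring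
        _ ≤ _ := by gcongr
    have h4 : 48 * T / ε ≤ ε * k / 4 + 48 * L / ε := by
      have h5 : T ≤ k / J + L := by
        rw [div_add' _ _ _ hJ0.ne', le_div_iff₀ hJ0]
        linarith
      have h6 : (k : ℝ) / J ≤ ε ^ 2 * k / 192 := by
        rw [div_le_iff₀ hJ0]
        rw [div_le_iff₀ (by positivity)] at hJ
        nlinarith
      have h7 : 48 * T / ε ≤ 48 * (ε ^ 2 * k / 192 + L) / ε := by
        gcongr
        linarith
      refine h7.trans (le_of_eq ?_)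
      field_simp
      ring
    have h8 : 3 + 48 * L / ε + J * L ≤ ε * k / 4 := by
      have h9 : 4 * (3 + 48 * L / ε + J * L) / ε ≤ k := hk1.trans hkk1
      rw [div_le_iff₀ hε] at h9
      linarith
    have h10 : (1 / 2 + ε / 2) * (J * L : ℝ) ≤ J * L := by
      have : (0 : ℝ) < J * L := by positivity
      nlinarith
    have h11 : ((D₀ + J * H : ℕ) : ℝ) ≤ (d : ℝ) := by
      push_cast
      nlinarith
    exact_mod_cast h11
  · have : (k : ℝ) ≤ ((J * (K * L) : ℕ) : ℝ) := by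
      push_cast
      rw [hT] at hJT2
      push_cast at hJT2
      linarith
    exact_mod_cast this
  · intro D hD
    apply key_ineq ε hε hε' L K q H Δ D hL hq hKN
    · have h1 : 48 * T / ε ≤ (D₀ : ℝ) := Nat.le_ceil _
      have h2 : (D₀ : ℝ) ≤ D := by exact_mod_cast hD
      linarith
    · exact (Nat.lt_floor_add_one _).le
    · -- 1 + 4 T Δ < exp (T/q * ε/8)
      set y : ℝ := T / q * (ε / 16) with hy
      have hy0 : 0 < y := by positivity
      have e1 : T / q * (ε / 8) = y + y := by rw [hy]; ring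
      have e2 : ε / (16 * q * J) * k ≤ y := by
        rw [hy, div_mul_eq_mul_div, div_le_iff₀ (by positivity)]
        have : T / q * (ε / 16) * (16 * q * J) = ε * (J * T) := by field_simp
        rw [this]
        gcongr
      have e3 : (Δ : ℝ) ≤ Real.exp y := hΔ.trans (Real.exp_le_exp.2 e2)
      have e4 : 5 * T < Real.exp y := by
        have h1 : y ^ 2 / 2 < Real.exp y := by
          have h2 := Real.quadratic_le_exp_of_nonneg hy0.le
          linarith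
        have h3 : 10 * (16 * q / ε) ^ 2 < T := by
          have h4 : J * (10 * (16 * q / ε) ^ 2) < J * T := by linarith
          exact lt_of_mul_lt_mul_left h4 hJ0.le
        have h5 : 5 * T ≤ y ^ 2 / 2 := by
          have h6 : y ^ 2 * (16 * q / ε) ^ 2 = T ^ 2 := by
            rw [hy]
            field_simp
          have h7 : 0 < (16 * q / ε : ℝ) ^ 2 := by positivity
          have h8 : 10 * T * (16 * q / ε) ^ 2 ≤ y ^ 2 * (16 * q / ε) ^ 2 := by
            rw [h6]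
            nlinarith
          have h9 := le_of_mul_le_mul_right h8 h7
          linarith
        linarith
      have e5 : 1 ≤ Real.exp y := Real.one_le_exp hy0.le
      have e6 : 1 ≤ T := by
        rw [hT]
        exact_mod_cast Nat.mul_pos hKN hLN
      rw [e1, Real.exp_add]
      have e7 : 4 * T * Δ ≤ 4 * T * Real.exp y := by gcongr
      have e8 : 1 ≤ T * Real.exp y := by nlinarith
      have e9 : 5 * T * Real.exp y < Real.exp y * Real.exp y :=
        mul_lt_mul_of_pos_right e4 (Real.exp_pos _)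
      nlinarith

end Pool.Agent.Helper1.OP
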