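import Pool.Agent.Helper1.OP.Assembly
import Pool.Agent.Helper1.OP.Numerics

/-!
MP_f8e2d3_co: the main theorem in neighbourhood form.
-/

set_option autoImplicit false

namespace Pool.Agent.Helper1.OP

theorem sets_card {V : Type*} [Fintype V] [DecidableEq V] (N : Bool → V → Finset V)
    (hN : ∀ b x y, y ∈ N b x → x ∈ N (!b) y) (Δ : ℕ) (hΔ : ∀ b v, (N b v).card ≤ Δ) (u : V) :
    (Finset.univ.filter fun e : Bool × V => u ∈ N e.1 e.2).card ≤ 2 * Δ := by
  have h1 : (Finset.univ.filter fun e : Bool × V => u ∈ N e.1 e.2) ⊆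
      ((N false u).image fun v => (true, v)) ∪ ((N true u).image fun v => (false, v)) := by
    rintro ⟨b, v⟩ he
    rw [Finset.mem_filter] at he
    have h2 := hN b v u he.2
    cases b
    · exact Finset.mem_union_right _ (Finset.mem_image.2 ⟨v, h2, rfl⟩)
    · exact Finset.mem_union_left _ (Finset.mem_image.2 ⟨v, h2, rfl⟩)
  refine (Finset.card_le_card h1).trans ((Finset.card_union_le _ _).trans ?_)
  have h2 := (Finset.card_image_le (s := N false u) (f := fun v => (true, v))).trans (hΔ false u)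
  have h3 := (Finset.card_image_le (s := N true u) (f := fun v => (false, v))).trans (hΔ true u)
  omega

/-- (Main). -/
theorem main (ε : ℝ) (hε : 0 < ε) :
    ∃ c : ℝ, 0 < c ∧ ∃ k₀ : ℕ, ∀ k : ℕ, k₀ ≤ k → ∀ (V : Type) [Fintype V] [DecidableEq V]
      [Nonempty V] (N : Bool → V → Finset V), (∀ b x y, y ∈ N b x → x ∉ N b y) →
      (∀ b x y, y ∈ N b x → x ∈ N (!b) y) →
      (∀ b v, (1 / 2 + ε) * k ≤ (N b v).card) →
      (∀ b v, ((N b v).card : ℝ) ≤ Real.exp (c * k)) → ∀ P : ℕ → Bool,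
      ∃ X : ℕ → V, (∀ i < k, X (i + 1) ∈ N (P i) (X i)) ∧
        (∀ i ≤ k, ∀ i' ≤ k, X i = X i' → i = i') := by
  obtain ⟨c, hc, k₀, hmain⟩ := numerics (min ε (1 / 2)) (lt_min hε (by norm_num))
    (min_le_right _ _)
  refine ⟨c, hc, k₀, ?_⟩
  intro k hk V _ _ hne N hO hN hlow hup P
  obtain ⟨x⟩ := hne
  set d : ℕ := ⌈(1 / 2 + ε) * (k : ℝ)⌉₊ - 1 with hd
  set Δ : ℕ := ⌊Real.exp (c * k)⌋₊ with hΔdef
  have hd1 : (1 / 2 + min ε (1 / 2)) * (k : ℝ) ≤ d + 1 := by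
    have h1 : (1 / 2 + ε) * (k : ℝ) ≤ (⌈(1 / 2 + ε) * (k : ℝ)⌉₊ : ℝ) := Nat.le_ceil _
    have h2 : (⌈(1 / 2 + ε) * (k : ℝ)⌉₊ : ℝ) ≤ (d : ℝ) + 1 := by
      have : ⌈(1 / 2 + ε) * (k : ℝ)⌉₊ ≤ d + 1 := by omega
      exact_mod_cast this
    have h3 : (1 / 2 + min ε (1 / 2)) * (k : ℝ) ≤ (1 / 2 + ε) * (k : ℝ) := by
      have := min_le_left ε (1 / 2)
      gcongr
    linarith
  have hΔ1 : (Δ : ℝ) ≤ Real.exp (c * k) := Nat.floor_le (Real.exp_pos _).le
  have hΔ2 : ∀ b v, (N b v).card ≤ Δ := fun b v => Nat.le_floor (hup b v)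
  have hlow2 : ∀ b v, d + 1 ≤ (N b v).card ∨ (⌈(1 / 2 + ε) * (k : ℝ)⌉₊ = 0) := by
    intro b v
    have h1 : ⌈(1 / 2 + ε) * (k : ℝ)⌉₊ ≤ (N b v).card := Nat.ceil_le.2 (hlow b v)
    omega
  obtain ⟨J, L, K, q, H, D₀, hq, hT, hD, hJ, hkey⟩ := hmain k hk d Δ hd1 hΔ1
  have hd0 : 0 < d := by omega
  obtain ⟨X, hX0, hX1, hX2⟩ := assembly (V := V) P (2 * Δ) L K q H D₀ hq hT hkey J
    (fun b v => (N b v).erase x)
    (fun b u w h h' => hO b u w (Finset.mem_of_mem_erase h) (Finset.mem_of_mem_erase h'))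
    (fun u => (Finset.card_le_card (by
        intro e he
        rw [Finset.mem_filter] at he ⊢
        exact ⟨he.1, Finset.mem_of_mem_erase he.2⟩)).trans (sets_card N hN Δ hΔ2 u))
    d hD (by
      intro b v
      have h1 := Finset.pred_card_le_card_erase (s := N b v) (a := x)
      rcases hlow2 b v with h2 | h2
      · omega
      · omega)
    x (fun b v => Finset.notMem_erase x _) 0
  refine ⟨X, ?_, ?_⟩
  · intro i hi
    have h1 := hX1 i (by omega)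
    rw [Nat.zero_add] at h1
    exact Finset.mem_of_mem_erase h1
  · intro i hi i' hi' h
    exact hX2 i (by omega) i' (by omega) h

end Pool.Agent.Helper1.OP
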