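import Pool.Agent.Helper1.OP.Window

/-!
MP_f8e2d3_co: the stage lemma (S).
-/

set_option autoImplicit false

namespace Pool.Agent.Helper1.OP

theorem pow_bound (δ : ℝ) (hδ : 0 ≤ δ) (a L : ℕ) (haL : a ≤ L) :
    (1 + δ) ^ a ≤ 1 + a * (δ * (1 + δ) ^ L) := by
  have h1 : ∀ a : ℕ, (1 + δ) ^ a ≤ 1 + a * (δ * (1 + δ) ^ a) := by
    intro a
    induction a with
    | zero => simp
    | succ a ih =>
      have hp : 0 ≤ (1 + δ) ^ a := by positivity
      rw [pow_succ]
      push_cast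
      have h2 : 0 ≤ (a : ℝ) := Nat.cast_nonneg a
      have h3 : 0 ≤ (a : ℝ) * δ * ((1 + δ) ^ a * δ) := by positivity
      have h4 : 0 ≤ δ * (1 + δ) ^ a * δ := by positivity
      nlinarith
  have h2 : (1 + δ) ^ a ≤ (1 + δ) ^ L := pow_le_pow_right₀ (by linarith) haL
  have h3 : (a : ℝ) * (δ * (1 + δ) ^ a) ≤ a * (δ * (1 + δ) ^ L) := by gcongr
  linarith [h1 a]

theorem pot_step {E : Type*} [Fintype E] (δ R M : ℝ) (hδ : 0 ≤ δ) (L : ℕ)
    (h h' a : E → ℕ) (h1 : ∀ e, h' e ≤ h e + a e) (h2 : ∀ e, a e ≤ L)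
    (h3 : ∑ e, ((1 + δ) ^ h e - 1) * (a e : ℝ) ≤ R * ∑ e, ((1 + δ) ^ h e - 1))
    (h4 : ∑ e, (a e : ℝ) ≤ M) :
    ∑ e, ((1 + δ) ^ h' e - 1) ≤
      (∑ e, ((1 + δ) ^ h e - 1)) * (1 + δ * (1 + δ) ^ L * R) + δ * (1 + δ) ^ L * M := by
  have hper : ∀ e ∈ (Finset.univ : Finset E), (1 + δ) ^ h' e - 1 ≤ ((1 + δ) ^ h e - 1) +
      δ * (1 + δ) ^ L * (((1 + δ) ^ h e - 1) * (a e : ℝ) + (a e : ℝ)) := by
    intro e _
    have e1 : (1 + δ) ^ h' e ≤ (1 + δ) ^ h e * (1 + δ) ^ a e := by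
      rw [← pow_add]
      exact pow_le_pow_right₀ (by linarith) (h1 e)
    have e2 := pow_bound δ hδ (a e) L (h2 e)
    have e3 : 0 ≤ (1 + δ) ^ h e := by positivity
    have e4 : (1 + δ) ^ h e * (1 + δ) ^ a e ≤
        (1 + δ) ^ h e * (1 + a e * (δ * (1 + δ) ^ L)) := by gcongr
    have e5 : (1 + δ) ^ h e * (1 + a e * (δ * (1 + δ) ^ L)) =
        (1 + δ) ^ h e + δ * (1 + δ) ^ L * (((1 + δ) ^ h e - 1) * (a e : ℝ) + (a e : ℝ)) := by
      ring
    linarith
  have hs := Finset.sum_le_sum hper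
  rw [Finset.sum_add_distrib, ← Finset.mul_sum, Finset.sum_add_distrib] at hs
  have hc : 0 ≤ δ * (1 + δ) ^ L := by positivity
  have h5 : δ * (1 + δ) ^ L *
      (∑ e, ((1 + δ) ^ h e - 1) * (a e : ℝ) + ∑ e, (a e : ℝ)) ≤
      δ * (1 + δ) ^ L * (R * ∑ e, ((1 + δ) ^ h e - 1) + M) := by gcongr
  calc ∑ e, ((1 + δ) ^ h' e - 1) ≤ _ := hs
    _ ≤ _ := add_le_add_right h5 _
    _ = _ := by ring

variable {V : Type*} [Fintype V] [DecidableEq V]

/-- The window lemma with weights on the sets `N e`. -/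
theorem windowW (N : Bool → V → Finset V) (hO : ∀ b x y, y ∈ N b x → x ∉ N b y)
    (P : ℕ → Bool) (D m L : ℕ) (hD : ∀ b v, (N b v).card = D) (hm : m < D)
    (W : Bool × V → ℕ) (F : Finset V) (hF : F.card + L ≤ m) (x : V) (j : ℕ) :
    ∃ X : ℕ → V, X 0 = x ∧ (∀ i < L, X (i + 1) ∈ N (P (j + i)) (X i)) ∧
      (∀ i < L, X (i + 1) ∉ F) ∧
      (∀ i < L, ∀ i' < L, X (i + 1) = X (i' + 1) → i = i') ∧
      2 * (D - m) * ∑ e : Bool × V, W e *
        ((Finset.range L).filter fun i => X (i + 1) ∈ N e.1 e.2).card ≤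
      (L + 1) * (D * ∑ e, W e) := by
  obtain ⟨X, h0, h1, h2, h3, h4⟩ := window N hO P D m L (fun b v => (hD b v).ge) hm
    (fun u => ∑ e : Bool × V, if u ∈ N e.1 e.2 then W e else 0) F hF x j
  refine ⟨X, h0, h1, h2, h3, ?_⟩
  have e1 : ∑ i ∈ Finset.range L, (∑ e : Bool × V, if X (i + 1) ∈ N e.1 e.2 then W e else 0) =
      ∑ e : Bool × V, W e *
        ((Finset.range L).filter fun i => X (i + 1) ∈ N e.1 e.2).card := by
    rw [Finset.sum_comm]
    apply Finset.sum_congr rfl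
    intro e _
    rw [← Finset.sum_filter, Finset.sum_const, smul_eq_mul, mul_comm]
  have e2 : ∑ u, (∑ e : Bool × V, if u ∈ N e.1 e.2 then W e else 0) = D * ∑ e, W e := by
    rw [Finset.sum_comm, Finset.mul_sum]
    apply Finset.sum_congr rfl
    intro e _
    rw [← Finset.sum_filter, Finset.sum_const, smul_eq_mul]
    have : (Finset.univ.filter fun u => u ∈ N e.1 e.2) = N e.1 e.2 := by
      ext u
      simp
    rw [this, hD]
  rw [e1, e2] at h4
  exact h4

/-- Number of visited vertices in the set `N e`. -/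
def hit (N : Bool → V → Finset V) (A : Finset V) (e : Bool × V) : ℕ := (N e.1 e.2 ∩ A).card

/-- One window of the stage. -/
theorem stage_window (N : Bool → V → Finset V) (hO : ∀ b x y, y ∈ N b x → x ∉ N b y)
    (P : ℕ → Bool) (D Λ L T q : ℕ) (hD : ∀ b v, (N b v).card = D)
    (hΛ : ∀ u, (Finset.univ.filter fun e : Bool × V => u ∈ N e.1 e.2).card ≤ Λ)
    (hq : 1 ≤ q) (hT : T < D) (A : Finset V) (hA : A.card + L ≤ T) (x : V) (j : ℕ) :
    ∃ Y : ℕ → V, Y 0 = x ∧ (∀ i < L, Y (i + 1) ∈ N (P (j + i)) (Y i)) ∧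
      (∀ i < L, Y (i + 1) ∉ A) ∧
      (∀ i < L, ∀ i' < L, Y (i + 1) = Y (i' + 1) → i = i') ∧
      ∑ e, ((1 + 1 / (q : ℝ)) ^
        hit N (A ∪ (Finset.range L).image fun i => Y (i + 1)) e - 1) ≤
      (∑ e, ((1 + 1 / (q : ℝ)) ^ hit N A e - 1)) *
        (1 + (1 / (q : ℝ)) * (1 + 1 / (q : ℝ)) ^ L * ((L + 1) * D / (2 * (D - T)))) +
      (1 / (q : ℝ)) * (1 + 1 / (q : ℝ)) ^ L * (L * Λ) := by
  have hq0 : (0 : ℝ) < q := by exact_mod_cast hq
  have hhT : ∀ e, hit N A e ≤ T := by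
    intro e
    have : hit N A e ≤ A.card := Finset.card_le_card Finset.inter_subset_right
    omega
  set W : Bool × V → ℕ := fun e => (q + 1) ^ hit N A e * q ^ (T - hit N A e) - q ^ T with hW
  have hWr : ∀ e, (W e : ℝ) = (q : ℝ) ^ T * ((1 + 1 / (q : ℝ)) ^ hit N A e - 1) := by
    intro e
    have h1 : q ^ T ≤ (q + 1) ^ hit N A e * q ^ (T - hit N A e) := by
      calc q ^ T = q ^ hit N A e * q ^ (T - hit N A e) := by
            rw [← pow_add]
            congr 1
            have := hhT e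
            omega
        _ ≤ _ := Nat.mul_le_mul_right _ (Nat.pow_le_pow_left (by omega) _)
    have h2 : (q : ℝ) ^ T = (q : ℝ) ^ hit N A e * (q : ℝ) ^ (T - hit N A e) := by
      rw [← pow_add]
      congr 1
      have := hhT e
      omega
    have h3 : (1 + 1 / (q : ℝ)) ^ hit N A e = ((q : ℝ) + 1) ^ hit N A e / (q : ℝ) ^ hit N A e := by
      rw [← div_pow]
      congr 1
      field_simp
    show (((q + 1) ^ hit N A e * q ^ (T - hit N A e) - q ^ T : ℕ) : ℝ) = _
    rw [Nat.cast_sub h1, h3]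
    push_cast
    have h4 : (q : ℝ) ^ hit N A e ≠ 0 := by positivity
    rw [mul_sub, mul_one]
    congr 1
    rw [h2]
    field_simp
  obtain ⟨Y, h0, h1, h2, h3, h4⟩ := windowW N hO P D T L hD hT W A hA x j
  refine ⟨Y, h0, h1, h2, h3, ?_⟩
  set a : Bool × V → ℕ := fun e =>
    ((Finset.range L).filter fun i => Y (i + 1) ∈ N e.1 e.2).card with ha
  have hDT : (0 : ℝ) < D - T := by
    have : (T : ℝ) < D := by exact_mod_cast hT
    linarith
  apply pot_step (1 / (q : ℝ)) ((L + 1) * D / (2 * (D - T))) (L * Λ) (by positivity) L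
    (hit N A) _ a
  · intro e
    have e1 : N e.1 e.2 ∩ (A ∪ (Finset.range L).image fun i => Y (i + 1)) ⊆
        (N e.1 e.2 ∩ A) ∪
          ((Finset.range L).filter fun i => Y (i + 1) ∈ N e.1 e.2).image fun i => Y (i + 1) := by
      intro u hu
      rw [Finset.mem_inter, Finset.mem_union, Finset.mem_image] at hu
      obtain ⟨hu1, hu2 | ⟨i, hi, hi2⟩⟩ := hu
      · exact Finset.mem_union_left _ (Finset.mem_inter.2 ⟨hu1, hu2⟩)
      · refine Finset.mem_union_right _ (Finset.mem_image.2 ⟨i, ?_, hi2⟩)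
        rw [Finset.mem_filter]
        exact ⟨hi, by rw [hi2]; exact hu1⟩
    exact (Finset.card_le_card e1).trans ((Finset.card_union_le _ _).trans
      (Nat.add_le_add_left Finset.card_image_le _))
  · intro e
    exact (Finset.card_filter_le _ _).trans (by simp)
  · have h5 : ((2 * (D - T) * ∑ e : Bool × V, W e * a e : ℕ) : ℝ) ≤
        (((L + 1) * (D * ∑ e, W e) : ℕ) : ℝ) := by exact_mod_cast h4
    push_cast [Nat.cast_sub hT.le] at h5
    have h6 : ∑ e : Bool × V, (W e : ℝ) * (a e : ℝ) =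
        (q : ℝ) ^ T * ∑ e, ((1 + 1 / (q : ℝ)) ^ hit N A e - 1) * (a e : ℝ) := by
      rw [Finset.mul_sum]
      apply Finset.sum_congr rfl
      intro e _
      rw [hWr]
      ring
    have h7 : ∑ e : Bool × V, (W e : ℝ) =
        (q : ℝ) ^ T * ∑ e, ((1 + 1 / (q : ℝ)) ^ hit N A e - 1) := by
      rw [Finset.mul_sum]
      apply Finset.sum_congr rfl
      intro e _
      rw [hWr]
    rw [h6, h7] at h5
    have h8 : (0 : ℝ) < (q : ℝ) ^ T := by positivity
    have h9 : (q : ℝ) ^ T * (2 * (D - T) * ∑ e, ((1 + 1 / (q : ℝ)) ^ hit N A e - 1) * (a e : ℝ)) ≤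
        (q : ℝ) ^ T * ((L + 1) * (D * ∑ e, ((1 + 1 / (q : ℝ)) ^ hit N A e - 1))) := by
      calc _ = 2 * (D - T) * ((q : ℝ) ^ T *
            ∑ e, ((1 + 1 / (q : ℝ)) ^ hit N A e - 1) * (a e : ℝ)) := by ring
        _ ≤ _ := h5
        _ = _ := by ring
    have h10 := le_of_mul_le_mul_left h9 h8
    rw [div_mul_eq_mul_div, le_div_iff₀ (by positivity)]
    calc _ = 2 * (D - T) * ∑ e, ((1 + 1 / (q : ℝ)) ^ hit N A e - 1) * (a e : ℝ) := by ring
      _ ≤ _ := h10
      _ = _ := by ring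
  · have h5 : ∑ e, a e ≤ L * Λ := by
      have e1 : ∀ e ∈ (Finset.univ : Finset (Bool × V)),
          a e = ∑ i ∈ Finset.range L, if Y (i + 1) ∈ N e.1 e.2 then 1 else 0 := by
        intro e _
        rw [Finset.sum_boole, Nat.cast_id]
      rw [Finset.sum_congr rfl e1, Finset.sum_comm]
      have e2 : ∀ i ∈ Finset.range L,
          ∑ e : Bool × V, (if Y (i + 1) ∈ N e.1 e.2 then 1 else 0) ≤ Λ := by
        intro i _
        rw [Finset.sum_boole, Nat.cast_id]
        exact hΛ _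
      refine (Finset.sum_le_sum e2).trans ?_
      rw [Finset.sum_const, Finset.card_range, smul_eq_mul]
    exact_mod_cast h5

theorem stage_ind (N : Bool → V → Finset V) (hO : ∀ b x y, y ∈ N b x → x ∉ N b y)
    (P : ℕ → Bool) (D Λ L K q : ℕ) (hD : ∀ b v, (N b v).card = D)
    (hΛ : ∀ u, (Finset.univ.filter fun e : Bool × V => u ∈ N e.1 e.2).card ≤ Λ)
    (hq : 1 ≤ q) (hT : K * L < D) (x : V) (hx : ∀ b v, x ∉ N b v) (j : ℕ) :
    ∀ i ≤ K, ∃ X : ℕ → V, X 0 = x ∧ (∀ t < i * L, X (t + 1) ∈ N (P (j + t)) (X t)) ∧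
      (∀ t ≤ i * L, ∀ t' ≤ i * L, X t = X t' → t = t') ∧
      ∑ e, ((1 + 1 / (q : ℝ)) ^
        hit N ((Finset.range (i * L)).image fun t => X (t + 1)) e - 1) ≤
        i * ((1 / (q : ℝ)) * (1 + 1 / (q : ℝ)) ^ L * (L * Λ)) *
          (1 + (1 / (q : ℝ)) * (1 + 1 / (q : ℝ)) ^ L *
            ((L + 1) * D / (2 * (D - (K * L : ℕ))))) ^ i := by
  have hDT : (0 : ℝ) < D - (K * L : ℕ) := by
    have : ((K * L : ℕ) : ℝ) < D := by exact_mod_cast hT
    linarith
  intro i
  induction i with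
  | zero =>
    intro _
    refine ⟨fun _ => x, rfl, by simp, ?_, ?_⟩
    · intro t ht t' ht' _
      omega
    · simp [hit]
  | succ i ih =>
    intro hi
    obtain ⟨X, hX0, hX1, hX2, hX3⟩ := ih (by omega)
    set A : Finset V := (Finset.range (i * L)).image fun t => X (t + 1) with hAdef
    have hAc : A.card ≤ i * L := by
      refine Finset.card_image_le.trans ?_
      simp
    have hle : (i + 1) * L ≤ K * L := Nat.mul_le_mul_right _ hi
    have hsucc : (i + 1) * L = i * L + L := by ring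
    obtain ⟨Y, hY0, hY1, hY2, hY3, hY4⟩ := stage_window N hO P D Λ L (K * L) q hD hΛ hq hT A
      (by omega) (X (i * L)) (j + i * L)
    set Z : ℕ → V := fun t => if t ≤ i * L then X t else Y (t - i * L) with hZ
    have hZ1 : ∀ t, t ≤ i * L → Z t = X t := fun t ht => by simp [hZ, ht]
    have hZ2 : ∀ t, Z (i * L + t) = Y t := by
      intro t
      rcases Nat.eq_zero_or_pos t with h | h
      · subst h
        simp [hZ, hY0]
      · have h1 : ¬ i * L + t ≤ i * L := by omega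
        simp only [hZ, h1, if_false]
        congr 1
        omega
    have hstep : ∀ t < (i + 1) * L, Z (t + 1) ∈ N (P (j + t)) (Z t) := by
      intro t ht
      rcases Nat.lt_or_ge t (i * L) with h | h
      · rw [hZ1 t (by omega), hZ1 (t + 1) (by omega)]
        exact hX1 t h
      · obtain ⟨s, hs⟩ : ∃ s, t = i * L + s := ⟨t - i * L, by omega⟩
        subst hs
        rw [hZ2, show i * L + s + 1 = i * L + (s + 1) by ring, hZ2,
          show j + (i * L + s) = j + i * L + s by ring]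
        exact hY1 s (by omega)
    refine ⟨Z, by rw [hZ1 0 (by omega), hX0], hstep, ?_, ?_⟩
    · -- injectivity
      have key : ∀ s < L, ∀ t ≤ i * L, Z (i * L + (s + 1)) ≠ Z t := by
        intro s hs t ht heq
        rcases Nat.eq_zero_or_pos t with h | h
        · subst h
          rw [hZ1 0 (by omega), hX0] at heq
          have h1 := hstep (i * L + s) (by omega)
          rw [show i * L + s + 1 = i * L + (s + 1) by ring, heq] at h1
          exact hx _ _ h1
        · rw [hZ2, hZ1 t ht] at heq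
          apply hY2 s hs
          rw [heq, hAdef, Finset.mem_image]
          refine ⟨t - 1, ?_, ?_⟩
          · rw [Finset.mem_range]
            omega
          · show X (t - 1 + 1) = X t
            congr 1
            omega
      intro t ht t' ht' heq
      rcases Nat.lt_or_ge (i * L) t with h | h <;> rcases Nat.lt_or_ge (i * L) t' with h' | h'
      · obtain ⟨s, hs⟩ : ∃ s, t = i * L + (s + 1) := ⟨t - i * L - 1, by omega⟩
        obtain ⟨s', hs'⟩ : ∃ s, t' = i * L + (s + 1) := ⟨t' - i * L - 1, by omega⟩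
        subst hs hs'
        rw [hZ2, hZ2] at heq
        have := hY3 s (by omega) s' (by omega) heq
        omega
      · obtain ⟨s, hs⟩ : ∃ s, t = i * L + (s + 1) := ⟨t - i * L - 1, by omega⟩
        subst hs
        exact absurd heq (key s (by omega) t' h')
      · obtain ⟨s', hs'⟩ : ∃ s, t' = i * L + (s + 1) := ⟨t' - i * L - 1, by omega⟩
        subst hs'
        exact absurd heq.symm (key s' (by omega) t h)
      · rw [hZ1 t h, hZ1 t' h'] at heq
        exact hX2 t h t' h' heq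
    · have hset : ((Finset.range ((i + 1) * L)).image fun t => Z (t + 1)) =
          A ∪ (Finset.range L).image fun t => Y (t + 1) := by
        ext u
        rw [Finset.mem_union, Finset.mem_image, hAdef, Finset.mem_image, Finset.mem_image]
        constructor
        · rintro ⟨t, ht, rfl⟩
          rw [Finset.mem_range] at ht
          rcases Nat.lt_or_ge t (i * L) with h | h
          · left
            exact ⟨t, Finset.mem_range.2 h, by rw [hZ1 (t + 1) (by omega)]⟩
          · right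
            obtain ⟨s, hs⟩ : ∃ s, t = i * L + s := ⟨t - i * L, by omega⟩
            subst hs
            refine ⟨s, Finset.mem_range.2 (by omega), ?_⟩
            rw [show i * L + s + 1 = i * L + (s + 1) by ring, hZ2]
        · rintro (⟨t, ht, rfl⟩ | ⟨s, hs, rfl⟩)
          · rw [Finset.mem_range] at ht
            exact ⟨t, Finset.mem_range.2 (by omega), by rw [hZ1 (t + 1) (by omega)]⟩
          · rw [Finset.mem_range] at hs
            refine ⟨i * L + s, Finset.mem_range.2 (by omega), ?_⟩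
            rw [show i * L + s + 1 = i * L + (s + 1) by ring, hZ2]
      rw [hset]
      refine hY4.trans ?_
      set ρ' : ℝ := 1 + (1 / (q : ℝ)) * (1 + 1 / (q : ℝ)) ^ L *
            ((L + 1) * D / (2 * (D - (K * L : ℕ)))) with hρ
      set C : ℝ := (1 / (q : ℝ)) * (1 + 1 / (q : ℝ)) ^ L * (L * Λ) with hC
      have hρ1 : 1 ≤ ρ' := by
        have : 0 ≤ (1 / (q : ℝ)) * (1 + 1 / (q : ℝ)) ^ L *
            ((L + 1) * D / (2 * (D - (K * L : ℕ)))) := by positivity
        linarith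
      have hC0 : 0 ≤ C := by positivity
      have h1 : (∑ e, ((1 + 1 / (q : ℝ)) ^ hit N A e - 1)) * ρ' ≤ (i * C * ρ' ^ i) * ρ' := by
        gcongr
      have h2 : C ≤ C * ρ' ^ (i + 1) := by
        have : 1 ≤ ρ' ^ (i + 1) := one_le_pow₀ hρ1
        nlinarith
      calc _ ≤ (i * C * ρ' ^ i) * ρ' + C * ρ' ^ (i + 1) := add_le_add h1 h2
        _ = _ := by push_cast; ring

/-- (S) the stage lemma: `T = K L`. -/
theorem stage (N : Bool → V → Finset V) (hO : ∀ b x y, y ∈ N b x → x ∉ N b y)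
    (P : ℕ → Bool) (D Λ L K q : ℕ) (hD : ∀ b v, (N b v).card = D)
    (hΛ : ∀ u, (Finset.univ.filter fun e : Bool × V => u ∈ N e.1 e.2).card ≤ Λ)
    (hq : 1 ≤ q) (hT : K * L < D) (x : V) (hx : ∀ b v, x ∉ N b v) (j : ℕ) :
    ∃ X : ℕ → V, X 0 = x ∧ (∀ i < K * L, X (i + 1) ∈ N (P (j + i)) (X i)) ∧
      (∀ i ≤ K * L, ∀ i' ≤ K * L, X i = X i' → i = i') ∧
      ∀ b v, (1 + 1 / (q : ℝ)) ^ ((N b v ∩ (Finset.range (K * L)).image fun i => X (i + 1)).card) ≤
        1 + K * ((1 / (q : ℝ)) * (1 + 1 / (q : ℝ)) ^ L * (L * Λ)) *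
          (1 + (1 / (q : ℝ)) * (1 + 1 / (q : ℝ)) ^ L * ((L + 1) * D / (2 * (D - K * L)))) ^ K := by
  obtain ⟨X, h0, h1, h2, h3⟩ := stage_ind N hO P D Λ L K q hD hΛ hq hT x hx j K le_rfl
  refine ⟨X, h0, h1, h2, ?_⟩
  intro b v
  have h4 : ((1 + 1 / (q : ℝ)) ^
        hit N ((Finset.range (K * L)).image fun t => X (t + 1)) (b, v) - 1) ≤
      ∑ e, ((1 + 1 / (q : ℝ)) ^
        hit N ((Finset.range (K * L)).image fun t => X (t + 1)) e - 1) := by
    apply Finset.single_le_sum (f := fun e => ((1 + 1 / (q : ℝ)) ^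
        hit N ((Finset.range (K * L)).image fun t => X (t + 1)) e - 1)) _ (Finset.mem_univ _)
    intro e _
    have : (1 : ℝ) ≤ (1 + 1 / (q : ℝ)) ^
        hit N ((Finset.range (K * L)).image fun t => X (t + 1)) e := by
      apply one_le_pow₀
      have : (0 : ℝ) ≤ 1 / (q : ℝ) := by positivity
      linarith
    show (0 : ℝ) ≤ _
    linarith
  have h5 := h4.trans h3
  push_cast at h5
  have h6 : hit N ((Finset.range (K * L)).image fun t => X (t + 1)) (b, v) =
      (N b v ∩ (Finset.range (K * L)).image fun i => X (i + 1)).card := rfl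
  rw [h6] at h5
  linarith

end Pool.Agent.Helper1.OP
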