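import Mathlib

/-!
MP_f8e2d3_co: the window lemma (W).
-/

set_option autoImplicit false

namespace Pool.Agent.Helper1.OP

/-- Order statistic: the least `t` such that more than `m` elements of `S` have `f`-value at
most `t`. -/
noncomputable def thr {V : Type*} (S : Finset V) (m : ℕ) (f : V → ℕ) : ℕ :=
  sInf {t | m < (S.filter fun u => f u ≤ t).card}

theorem thr_le {V : Type*} (S : Finset V) (m : ℕ) (f : V → ℕ) (hm : m < S.card) :
    m < (S.filter fun u => f u ≤ thr S m f).card := by
  have hne : {t | m < (S.filter fun u => f u ≤ t).card}.Nonempty := by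
    refine ⟨S.sup f, ?_⟩
    have : (S.filter fun u => f u ≤ S.sup f) = S := by
      apply Finset.filter_true_of_mem
      intro u hu
      exact Finset.le_sup hu
    show m < (S.filter fun u => f u ≤ S.sup f).card
    rw [this]
    exact hm
  exact Nat.sInf_mem hne

theorem thr_lt {V : Type*} (S : Finset V) (m : ℕ) (f : V → ℕ) :
    (S.filter fun u => f u < thr S m f).card ≤ m := by
  rcases Nat.eq_zero_or_pos (thr S m f) with h | h
  · rw [h]
    simp
  · have h1 : thr S m f - 1 ∉ {t | m < (S.filter fun u => f u ≤ t).card} :=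
      Nat.notMem_of_lt_sInf (by unfold thr at h ⊢; omega)
    have h2 : ¬ m < (S.filter fun u => f u ≤ thr S m f - 1).card := h1
    have h3 : (S.filter fun u => f u < thr S m f) =
        (S.filter fun u => f u ≤ thr S m f - 1) := by
      apply Finset.filter_congr
      intro u _
      omega
    rw [h3]
    omega

section

variable {V : Type*} [Fintype V] [DecidableEq V]

/-- The cost-to-go function. -/
noncomputable def cst (N : Bool → V → Finset V) (P : ℕ → Bool) (m : ℕ) (g : V → ℕ) :
    ℕ → ℕ → V → ℕ
  | 0, _, _ => 0
  | l + 1, j, v => thr (N (P j) v) m fun u => g u + cst N P m g l (j + 1) u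

theorem walker (N : Bool → V → Finset V) (P : ℕ → Bool) (D m : ℕ)
    (hD : ∀ b v, D ≤ (N b v).card) (hm : m < D) (g : V → ℕ) :
    ∀ (L : ℕ) (F : Finset V), F.card + L ≤ m → ∀ (x : V) (j : ℕ),
    ∃ X : ℕ → V, X 0 = x ∧ (∀ i < L, X (i + 1) ∈ N (P (j + i)) (X i)) ∧
      (∀ i < L, X (i + 1) ∉ F) ∧
      (∀ i < L, ∀ i' < L, X (i + 1) = X (i' + 1) → i = i') ∧
      ∑ i ∈ Finset.range L, g (X (i + 1)) ≤ cst N P m g L j x := by
  intro L
  induction L with
  | zero =>
    intro F _ x j
    exact ⟨fun _ => x, rfl, by simp, by simp, by simp, by simp⟩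
  | succ L ih =>
    intro F hF x j
    set f : V → ℕ := fun u => g u + cst N P m g L (j + 1) u with hf
    have h1 : m < ((N (P j) x).filter fun u => f u ≤ thr (N (P j) x) m f).card :=
      thr_le _ _ _ (lt_of_lt_of_le hm (hD _ _))
    obtain ⟨u, hu, huF⟩ : ∃ u ∈ (N (P j) x).filter fun u => f u ≤ thr (N (P j) x) m f,
        u ∉ F := by
      by_contra hcon
      push Not at hcon
      have := Finset.card_le_card (show ((N (P j) x).filter
        fun u => f u ≤ thr (N (P j) x) m f) ⊆ F from fun u hu => hcon u hu)
      omega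
    rw [Finset.mem_filter] at hu
    obtain ⟨X, hX0, hX1, hX2, hX3, hX4⟩ := ih (insert u F)
      (by have := Finset.card_insert_le u F; omega) u (j + 1)
    refine ⟨fun i => if i = 0 then x else X (i - 1), by simp, ?_, ?_, ?_, ?_⟩
    · intro i hi
      rcases Nat.eq_zero_or_pos i with h | h
      · subst h
        simpa [hX0] using hu.1
      · have h2 := hX1 (i - 1) (by omega)
        have e1 : i - 1 + 1 = i := by omega
        have e2 : j + 1 + (i - 1) = j + i := by omega
        rw [e1, e2] at h2
        have h3 : i ≠ 0 := by omega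
        simpa [h3] using h2
    · intro i hi
      rcases Nat.eq_zero_or_pos i with h | h
      · subst h
        simpa [hX0] using huF
      · have h2 := hX2 (i - 1) (by omega)
        have e1 : i - 1 + 1 = i := by omega
        rw [e1] at h2
        simp only [Nat.add_eq_zero_iff, one_ne_zero, and_false, if_false, Nat.add_sub_cancel]
        intro h4
        exact h2 (Finset.mem_insert_of_mem h4)
    · intro i hi i' hi' hii
      simp only [Nat.add_eq_zero_iff, one_ne_zero, and_false, if_false,
        Nat.add_sub_cancel] at hii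
      rcases Nat.eq_zero_or_pos i with h | h <;> rcases Nat.eq_zero_or_pos i' with h' | h'
      · omega
      · exfalso
        subst h
        rw [hX0] at hii
        have h2 := hX2 (i' - 1) (by omega)
        have e1 : i' - 1 + 1 = i' := by omega
        rw [e1, ← hii] at h2
        exact h2 (Finset.mem_insert_self _ _)
      · exfalso
        subst h'
        rw [hX0] at hii
        have h2 := hX2 (i - 1) (by omega)
        have e1 : i - 1 + 1 = i := by omega
        rw [e1, hii] at h2
        exact h2 (Finset.mem_insert_self _ _)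
      · have h2 := hX3 (i - 1) (by omega) (i' - 1) (by omega)
        have e1 : i - 1 + 1 = i := by omega
        have e2 : i' - 1 + 1 = i' := by omega
        rw [e1, e2] at h2
        have := h2 hii
        omega
    · have h5 : ∑ i ∈ Finset.range (L + 1),
          g ((fun i => if i = 0 then x else X (i - 1)) (i + 1)) =
          ∑ i ∈ Finset.range (L + 1), g (X i) := by
        apply Finset.sum_congr rfl
        intro i _
        simp
      rw [h5, Finset.sum_range_succ', hX0]
      have h6 : f u ≤ thr (N (P j) x) m f := hu.2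
      have h7 : cst N P m g (L + 1) j x = thr (N (P j) x) m f := rfl
      rw [h7]
      have h8 : f u = g u + cst N P m g L (j + 1) u := rfl
      omega

/-- Counting pairs inside a level set. -/
theorem level_count (M : V → Finset V) (hO : ∀ x y, y ∈ M x → x ∉ M y) (r : ℕ)
    (A Q : Finset V) (hQ : Q.Nonempty) (h : ∀ v ∈ Q, r ≤ (M v ∩ A).card) :
    2 * r + (A ∩ Q).card ≤ 2 * A.card := by
  rcases (A ∩ Q).eq_empty_or_nonempty with he | hne
  · obtain ⟨v, hv⟩ := hQ
    have h1 := h v hv
    have h2 : (M v ∩ A).card ≤ A.card := Finset.card_le_card Finset.inter_subset_right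
    rw [he]
    simp
    omega
  · set X := A ∩ Q with hX
    have hpos : 0 < X.card := Finset.card_pos.2 hne
    have hXA : X ⊆ A := Finset.inter_subset_left
    have h1 : X.card * r ≤ ∑ v ∈ X, (M v ∩ A).card := by
      rw [← smul_eq_mul, ← Finset.sum_const]
      apply Finset.sum_le_sum
      intro v hv
      exact h v (Finset.mem_inter.1 hv).2
    have h2 : ∀ v ∈ X, (M v ∩ A).card ≤ (M v ∩ X).card + (A.card - X.card) := by
      intro v _
      have : M v ∩ A ⊆ (M v ∩ X) ∪ (A \ X) := by
        intro u hu
        rw [Finset.mem_inter] at hu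
        by_cases hx : u ∈ X
        · exact Finset.mem_union_left _ (Finset.mem_inter.2 ⟨hu.1, hx⟩)
        · exact Finset.mem_union_right _ (Finset.mem_sdiff.2 ⟨hu.2, hx⟩)
      refine (Finset.card_le_card this).trans ((Finset.card_union_le _ _).trans ?_)
      rw [Finset.card_sdiff_of_subset hXA]
    have h3 : ∑ v ∈ X, (M v ∩ A).card ≤
        ∑ v ∈ X, (M v ∩ X).card + X.card * (A.card - X.card) := by
      refine (Finset.sum_le_sum h2).trans ?_
      rw [Finset.sum_add_distrib, Finset.sum_const, smul_eq_mul]
    have h4 : 2 * ∑ v ∈ X, (M v ∩ X).card ≤ X.card * X.card := by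
      have e1 : ∀ v ∈ X, (M v ∩ X).card = ∑ u ∈ X, if u ∈ M v then 1 else 0 := by
        intro v _
        rw [Finset.sum_boole, Nat.cast_id]
        congr 1
        ext u
        simp [and_comm]
      rw [Finset.sum_congr rfl e1]
      have e2 : ∑ v ∈ X, ∑ u ∈ X, (if u ∈ M v then 1 else 0) =
          ∑ v ∈ X, ∑ u ∈ X, (if v ∈ M u then 1 else 0) := Finset.sum_comm
      rw [two_mul]
      nth_rewrite 2 [e2]
      rw [← Finset.sum_add_distrib]
      have e3 : ∀ v ∈ X, (∑ u ∈ X, (if u ∈ M v then 1 else 0) +
          ∑ u ∈ X, (if v ∈ M u then 1 else 0)) ≤ X.card := by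
        intro v _
        rw [← Finset.sum_add_distrib]
        have : ∀ u ∈ X, ((if u ∈ M v then 1 else 0) + (if v ∈ M u then 1 else 0)) ≤ 1 := by
          intro u _
          by_cases h : u ∈ M v
          · have h' := hO _ _ h
            simp [h, h']
          · by_cases h' : v ∈ M u <;> simp [h, h']
        refine (Finset.sum_le_sum this).trans ?_
        simp
      refine (Finset.sum_le_sum e3).trans ?_
      rw [Finset.sum_const, smul_eq_mul]
    have h5 : X.card ≤ A.card := Finset.card_le_card hXA
    obtain ⟨a, ha⟩ : ∃ a, A.card = X.card + a := ⟨A.card - X.card, by omega⟩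
    rw [ha] at h3 ⊢
    have e4 : X.card + a - X.card = a := by omega
    rw [e4] at h3
    have h6 : X.card * (2 * r) ≤ X.card * (X.card + 2 * a) := by nlinarith
    have h7 := Nat.le_of_mul_le_mul_left h6 hpos
    omega

theorem sum_level (f : V → ℕ) (a b : ℕ) :
    ∑ t ∈ Finset.Ioc a b, (Finset.univ.filter fun u => t ≤ f u).card =
      ∑ u, (min b (f u) - a) := by
  have h1 : ∀ t ∈ Finset.Ioc a b, (Finset.univ.filter fun u => t ≤ f u).card =
      ∑ u, if t ≤ f u then 1 else 0 := by
    intro t _
    rw [Finset.sum_boole, Nat.cast_id]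
  rw [Finset.sum_congr rfl h1, Finset.sum_comm]
  apply Finset.sum_congr rfl
  intro u _
  rw [Finset.sum_boole, Nat.cast_id]
  have : (Finset.Ioc a b).filter (fun t => t ≤ f u) = Finset.Ioc a (min b (f u)) := by
    ext t
    simp only [Finset.mem_filter, Finset.mem_Ioc, le_min_iff]
    tauto
  rw [this, Nat.card_Ioc]

theorem main_ineq (N : Bool → V → Finset V) (hO : ∀ b x y, y ∈ N b x → x ∉ N b y)
    (P : ℕ → Bool) (D m : ℕ) (hD : ∀ b v, D ≤ (N b v).card)
    (g : V → ℕ) (x : V) : ∀ (l j : ℕ),
    2 * (D - m) * (Finset.univ.sup (cst N P m g l j)) +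
      ∑ u, (g u - (Finset.univ.sup (cst N P m g l j) - cst N P m g l j u)) ≤
      (l + 1) * ∑ u, g u := by
  intro l
  induction l with
  | zero =>
    intro j
    have h1 : cst N P m g 0 j = fun _ => 0 := by
      funext v
      rfl
    have h2 : (Finset.univ.sup (cst N P m g 0 j)) = 0 := by
      rw [h1]
      simp
    rw [h2]
    simp
  | succ l ih =>
    intro j
    have IH := ih (j + 1)
    set c' := cst N P m g l (j + 1) with hc'
    set c := cst N P m g (l + 1) j with hc
    set G' := Finset.univ.sup c' with hG'
    set G := Finset.univ.sup c with hG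
    have hcG : ∀ u, c u ≤ G := fun u => Finset.le_sup (Finset.mem_univ u)
    have hcG' : ∀ u, c' u ≤ G' := fun u => Finset.le_sup (Finset.mem_univ u)
    rcases Nat.lt_or_ge G' G with hlt | hge
    · have hlev : ∀ t ∈ Finset.Ioc G' G, 2 * (D - m) +
          (Finset.univ.filter fun u => t ≤ min (g u + c' u) (c u)).card ≤
          2 * (Finset.univ.filter fun u => t ≤ g u + c' u).card := by
        intro t ht
        rw [Finset.mem_Ioc] at ht
        have hQ : (Finset.univ.filter fun v => t ≤ c v).Nonempty := by
          obtain ⟨v, _, hv⟩ := Finset.exists_mem_eq_sup Finset.univ ⟨x, Finset.mem_univ x⟩ c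
          refine ⟨v, ?_⟩
          rw [Finset.mem_filter]
          refine ⟨Finset.mem_univ _, ?_⟩
          rw [← hv]
          exact ht.2
        have key := level_count (N (P j)) (hO (P j)) (D - m)
          (Finset.univ.filter fun u => t ≤ g u + c' u) (Finset.univ.filter fun v => t ≤ c v)
          hQ (by
            intro v hv
            rw [Finset.mem_filter] at hv
            have h1 : ((N (P j) v).filter fun u => g u + c' u < c v).card ≤ m :=
              thr_lt (N (P j) v) m fun u => g u + c' u
            have h2 := hD (P j) v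
            have h3 : (N (P j) v).card ≤
                ((N (P j) v) ∩ (Finset.univ.filter fun u => t ≤ g u + c' u)).card +
                ((N (P j) v).filter fun u => g u + c' u < c v).card := by
              refine (Finset.card_le_card ?_).trans (Finset.card_union_le _ _)
              intro u hu
              by_cases h : t ≤ g u + c' u
              · exact Finset.mem_union_left _ (Finset.mem_inter.2 ⟨hu,
                  Finset.mem_filter.2 ⟨Finset.mem_univ _, h⟩⟩)
              · exact Finset.mem_union_right _ (Finset.mem_filter.2 ⟨hu, by omega⟩)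
            omega)
        have e1 : (Finset.univ.filter fun u => t ≤ min (g u + c' u) (c u)) =
            (Finset.univ.filter fun u => t ≤ g u + c' u) ∩
              (Finset.univ.filter fun v => t ≤ c v) := by
          ext u
          simp only [Finset.mem_filter, Finset.mem_univ, true_and, le_min_iff,
            Finset.mem_inter]
        rw [e1]
        exact key
      have hsum := Finset.sum_le_sum hlev
      rw [Finset.sum_add_distrib, Finset.sum_const, smul_eq_mul, Nat.card_Ioc,
        ← Finset.mul_sum, sum_level, sum_level] at hsum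
      have hper : ∀ u ∈ (Finset.univ : Finset V),
          2 * (min G (g u + c' u) - G') + (g u - (G - c u)) ≤
          g u + (g u - (G' - c' u)) + (min G (min (g u + c' u) (c u)) - G') := by
        intro u _
        have h1 := hcG u
        have h2 := hcG' u
        omega
      have hper2 := Finset.sum_le_sum hper
      rw [Finset.sum_add_distrib, Finset.sum_add_distrib, Finset.sum_add_distrib,
        ← Finset.mul_sum] at hper2
      obtain ⟨a, ha⟩ : ∃ a, G = G' + a := ⟨G - G', by omega⟩
      have e2 : G - G' = a := by omega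
      rw [e2] at hsum
      have e3 : 2 * (D - m) * G = 2 * (D - m) * G' + a * (2 * (D - m)) := by
        rw [ha]; ring
      have e4 : (l + 1 + 1) * ∑ u, g u = (l + 1) * ∑ u, g u + ∑ u, g u := by ring
      rw [e3, e4]
      omega
    · have h1 : 2 * (D - m) * G ≤ 2 * (D - m) * G' := Nat.mul_le_mul_left _ hge
      have h2 : ∑ u, (g u - (G - c u)) ≤ ∑ u, g u :=
        Finset.sum_le_sum fun u _ => Nat.sub_le _ _
      have e4 : (l + 1 + 1) * ∑ u, g u = (l + 1) * ∑ u, g u + ∑ u, g u := by ring
      rw [e4]
      omega

/-- (W) the window lemma. -/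
theorem window (N : Bool → V → Finset V) (hO : ∀ b x y, y ∈ N b x → x ∉ N b y)
    (P : ℕ → Bool) (D m L : ℕ) (hD : ∀ b v, D ≤ (N b v).card) (hm : m < D)
    (g : V → ℕ) (F : Finset V) (hF : F.card + L ≤ m) (x : V) (j : ℕ) :
    ∃ X : ℕ → V, X 0 = x ∧ (∀ i < L, X (i + 1) ∈ N (P (j + i)) (X i)) ∧
      (∀ i < L, X (i + 1) ∉ F) ∧
      (∀ i < L, ∀ i' < L, X (i + 1) = X (i' + 1) → i = i') ∧
      2 * (D - m) * ∑ i ∈ Finset.range L, g (X (i + 1)) ≤ (L + 1) * ∑ u, g u := by
  obtain ⟨X, h0, h1, h2, h3, h4⟩ := walker N P D m hD hm g L F hF x j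
  refine ⟨X, h0, h1, h2, h3, ?_⟩
  have h5 := main_ineq N hO P D m hD g x L j
  have h6 : cst N P m g L j x ≤ Finset.univ.sup (cst N P m g L j) :=
    Finset.le_sup (Finset.mem_univ x)
  have h7 : 2 * (D - m) * ∑ i ∈ Finset.range L, g (X (i + 1)) ≤
      2 * (D - m) * Finset.univ.sup (cst N P m g L j) :=
    Nat.mul_le_mul_left _ (h4.trans h6)
  omega

end

end Pool.Agent.Helper1.OP
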